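import Pool.Agent.Helper64.HG.Stmts

set_option autoImplicit false

/-! Module NCK: subdivided `K₄` are not circle graphs. -/

namespace Pool.Agent.Helper64.HG

theorem nck_ch {V : Type} (G : SimpleGraph V) (P : List V) : Ch G P ↔ P.IsChain G.Adj := by
  rw [List.isChain_iff_getElem]
  rfl

section
variable {V : Type} {G : SimpleGraph V} {x : Fin 4 → V} {A : Fin 4 → Fin 4 → List V}

theorem nck_nodup (h : KSys G x A) {i j : Fin 4} (hij : i ≠ j) : (A i j).Nodup := by
  by_cases h0 : A i j = []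
  · rw [h0]; exact List.nodup_nil
  · exact (h.link i j hij h0).2.1.1

theorem nck_xA (h : KSys G x A) {i j k : Fin 4} (hij : i ≠ j) : x k ∉ A i j := by
  intro hk
  have h0 : A i j ≠ [] := List.ne_nil_of_mem hk
  have hl := h.link i j hij h0
  by_cases h1 : k = i
  · subst h1; exact hl.2.2.1 hk
  · by_cases h2 : k = j
    · subst h2; exact hl.2.2.2.1 hk
    · exact (h.antix i j k hij h1 h2 (x k) (List.mem_singleton.2 rfl) (x k) hk).1 rfl

/-- the path from `x i` to `x j` -/
theorem nck_chain (h : KSys G x A) {i j : Fin 4} (hij : i ≠ j) :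
    List.IsChain G.Adj (x i :: (A i j ++ [x j])) := by
  by_cases h0 : A i j = []
  · rw [h0, List.nil_append, List.isChain_pair]
    exact h.edge i j hij h0
  · obtain ⟨_, hip, _, _, hu, hw⟩ := h.link i j hij h0
    have h1 : (A i j).IsChain G.Adj := by
      rw [List.isChain_iff_getElem]
      intro n hn
      exact (hip.2 n (n + 1) (by omega) hn (by omega)).2 rfl
    refine List.IsChain.cons (List.isChain_append.2 ⟨h1, List.isChain_singleton _, ?_⟩) ?_
    · intro a ha b hb
      rw [List.head?_cons, Option.mem_some_iff] at hb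
      subst hb
      rw [Option.mem_def] at ha
      exact ((hw a (List.mem_of_getLast? ha)).2 ha).symm
    · intro a ha
      rw [Option.mem_def, List.head?_append_of_ne_nil _ h0] at ha
      exact (hu a (List.mem_of_head? ha)).2 ha

/-- the neighbour of `x i` on the path to `x j` -/
theorem nck_a (h : KSys G x A) (i : Fin 4) : ∃ a : Fin 4 → V, ∀ j, i ≠ j →
    (A i j ++ [x j]).head? = some (a j) ∧ G.Adj (x i) (a j) ∧
    (A i j = [] → a j = x j) ∧ (A i j ≠ [] → a j ∈ A i j) ∧
    ∀ y ∈ A i j, G.Adj (x i) y → y = a j := by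
  refine ⟨fun j => (A i j ++ [x j]).head (by simp), fun j hij => ?_⟩
  have h1 := nck_chain h hij
  have h2 : (A i j ++ [x j]).head? = some ((A i j ++ [x j]).head (by simp)) :=
    List.head?_eq_some_head _
  refine ⟨h2, h1.rel_head? h2, ?_, ?_, ?_⟩
  · intro h0
    simp [h0]
  · intro h0
    rw [List.head?_append_of_ne_nil _ h0] at h2
    exact List.mem_of_head? h2
  · intro y hy hay
    have h0 : A i j ≠ [] := List.ne_nil_of_mem hy
    obtain ⟨_, _, _, _, hu, _⟩ := h.link i j hij h0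
    have h3 := (hu y hy).1 hay
    rw [List.head?_append_of_ne_nil _ h0, h3] at h2
    exact Option.some_injective _ h2

theorem nck_tri (hG : Girth5 G) (h : KSys G x A) {i j l : Fin 4} (hij : i ≠ j) (hil : i ≠ l)
    (hjl : j ≠ l) (h1 : A i j = []) (h2 : A j l = []) (h3 : A i l = []) : False :=
  hG.1 (x i) (x j) (x l) (h.edge i j hij h1) (h.edge j l hjl h2) (h.edge i l hil h3)

theorem nck_sym (h : KSys G x A) {i j : Fin 4} (h1 : A i j = []) : A j i = [] := by
  rw [h.rev i j, h1, List.reverse_nil]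

/-- the choice of `i` -/
theorem nck_i (hG : Girth5 G) (h : KSys G x A) (hN : NoP4 A) : ∃ i : Fin 4, ∀ l j : Fin 4,
    i ≠ l → i ≠ j → l ≠ j → A i l = [] → A l j ≠ [] := by
  by_contra hcon
  push Not at hcon
  obtain ⟨l, j, h0l, h0j, hlj, e1, e2⟩ := hcon 0
  obtain ⟨l', j', a1, a2, a3, e3, e4⟩ := hcon l
  by_cases c1 : l' = 0
  · subst c1
    by_cases c2 : j' = j
    · subst c2
      exact nck_tri hG h h0l h0j hlj e1 e2 e4
    · exact hN j l 0 j' hlj.symm h0j.symm (Ne.symm c2) a1 a2 a3 ⟨nck_sym h e2, e3, e4⟩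
  · by_cases c3 : l' = j
    · subst c3
      by_cases c2 : j' = 0
      · subst c2
        exact nck_tri hG h h0l h0j hlj e1 e2 (nck_sym h e4)
      · exact hN 0 l l' j' h0l h0j (Ne.symm c2) a1 a2 a3 ⟨e1, e3, e4⟩
    · by_cases c4 : j' = 0
      · subst c4
        exact nck_tri hG h h0l (Ne.symm c1) a1 e1 e3 (nck_sym h e4)
      · by_cases c5 : j' = j
        · subst c5
          exact nck_tri hG h a1 hlj a3 e3 e4 e2
        · exfalso
          omega

/-- no `a k` is between the other two -/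
theorem nck_btw (hG : Girth5 G) (h : KSys G x A) (i : Fin 4)
    (hi : ∀ l j : Fin 4, i ≠ l → i ≠ j → l ≠ j → A i l = [] → A l j ≠ []) (a : Fin 4 → V)
    (ha : ∀ j, i ≠ j →
      (A i j ++ [x j]).head? = some (a j) ∧ G.Adj (x i) (a j) ∧
      (A i j = [] → a j = x j) ∧ (A i j ≠ [] → a j ∈ A i j) ∧
      ∀ y ∈ A i j, G.Adj (x i) y → y = a j) (j l k : Fin 4) (hij : i ≠ j) (hil : i ≠ l)
    (hik : i ≠ k) (hjl : j ≠ l) (hjk : j ≠ k) (hlk : l ≠ k) :
    a k ≠ a j ∧ a k ≠ a l ∧ ∃ P : List V, Ch G P ∧ (∀ y ∈ P, y ∈ Far G (x i)) ∧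
      (∃ y ∈ P, G.Adj (a j) y) ∧ (∃ y ∈ P, G.Adj (a l) y) ∧ ∀ y ∈ P, ¬ G.Adj (a k) y := by
  obtain ⟨F, hF⟩ : ∃ F, F = A i j ++ x j :: (A j l ++ x l :: A l i) := ⟨_, rfl⟩
  have hFm : ∀ y, y ∈ F ↔ y ∈ A i j ∨ y = x j ∨ y ∈ A j l ∨ y = x l ∨ y ∈ A l i := by
    intro y
    rw [hF]
    simp only [List.mem_append, List.mem_cons]
  have hFc : F.IsChain G.Adj := by
    rw [hF, List.isChain_split, List.isChain_cons_split]
    refine ⟨(nck_chain h hij).tail, nck_chain h hjl, ?_⟩
    have h1 := nck_chain h hil.symm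
    rw [← List.cons_append] at h1
    exact h1.left_of_append
  have hli : A l i = (A i l).reverse := h.rev i l
  -- F avoids a k
  have hk : ∀ y ∈ F, a k ≠ y ∧ ¬ G.Adj (a k) y := by
    intro y hy
    rw [hFm] at hy
    by_cases h0 : A i k = []
    · rw [(ha k hik).2.2.1 h0]
      have hkj : A k j ≠ [] := hi k j hik hij (Ne.symm hjk) h0
      have hkl : A k l ≠ [] := hi k l hik hil (Ne.symm hlk) h0
      rcases hy with hy | rfl | hy | rfl | hy
      · exact h.antix i j k hij hik.symm hjk.symm _ (List.mem_singleton.2 rfl) y hy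
      · exact ⟨fun e => hjk (h.inj e).symm, h.nedge k j hjk.symm hkj⟩
      · exact h.antix j l k hjl hjk.symm hlk.symm _ (List.mem_singleton.2 rfl) y hy
      · exact ⟨fun e => hlk (h.inj e).symm, h.nedge k l hlk.symm hkl⟩
      · exact h.antix l i k hil.symm hlk.symm hik.symm _ (List.mem_singleton.2 rfl) y hy
    · have hm := (ha k hik).2.2.2.1 h0
      rcases hy with hy | rfl | hy | rfl | hy
      · exact h.anti i k i j hik hij (fun e => hjk e.2.symm) (fun e => hij e.1) _ hm y hy
      · have := h.antix i k j hik hij.symm hjk _ (List.mem_singleton.2 rfl) _ hm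
        exact ⟨this.1.symm, fun e => this.2 e.symm⟩
      · exact h.anti i k j l hik hjl (fun e => hij e.1) (fun e => hil e.1) _ hm y hy
      · have := h.antix i k l hik hil.symm hlk _ (List.mem_singleton.2 rfl) _ hm
        exact ⟨this.1.symm, fun e => this.2 e.symm⟩
      · exact h.anti i k l i hik hil.symm (fun e => hil e.1) (fun e => hlk e.2.symm) _ hm y hy
  -- the vertex x i
  have hv : ∀ y ∈ F, y ≠ x i ∧ (G.Adj (x i) y → y = a j ∨ y = a l) := by
    intro y hy
    rw [hFm] at hy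
    rcases hy with hy | rfl | hy | rfl | hy
    · exact ⟨fun e => nck_xA h hij (e ▸ hy), fun e => Or.inl ((ha j hij).2.2.2.2 y hy e)⟩
    · refine ⟨fun e => hij (h.inj e).symm, fun e => Or.inl ?_⟩
      have h0 : A i j = [] := by
        by_contra h0
        exact h.nedge i j hij h0 e
      exact ((ha j hij).2.2.1 h0).symm
    · refine ⟨fun e => nck_xA h hjl (e ▸ hy), fun e => ?_⟩
      exact absurd e (h.antix j l i hjl hij hil _ (List.mem_singleton.2 rfl) y hy).2
    · refine ⟨fun e => hil (h.inj e).symm, fun e => Or.inr ?_⟩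
      have h0 : A i l = [] := by
        by_contra h0
        exact h.nedge i l hil h0 e
      exact ((ha l hil).2.2.1 h0).symm
    · refine ⟨fun e => nck_xA h hil.symm (e ▸ hy), fun e => Or.inr ?_⟩
      rw [hli, List.mem_reverse] at hy
      exact (ha l hil).2.2.2.2 y hy e
  have hdis : ∀ {i j k l : Fin 4}, i ≠ j → k ≠ l → ¬ (i = k ∧ j = l) → ¬ (i = l ∧ j = k) →
      ∀ y ∈ A i j, y ∉ A k l := fun {i j k l} h1 h2 h3 h4 y hy hy' =>
    (h.anti i j k l h1 h2 h3 h4 y hy y hy').1 rfl
  have hnd : F.Nodup := by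
    rw [hF, List.nodup_append]
    refine ⟨nck_nodup h hij, ?_, ?_⟩
    · rw [List.nodup_cons, List.nodup_append]
      refine ⟨?_, nck_nodup h hjl, ?_, ?_⟩
      · rw [List.mem_append, List.mem_cons]
        rintro (h1 | h1 | h1)
        · exact nck_xA h hjl h1
        · exact hjl (h.inj h1)
        · exact nck_xA h hil.symm h1
      · rw [List.nodup_cons]
        exact ⟨nck_xA h hil.symm, nck_nodup h hil.symm⟩
      · intro y hy z hz e
        subst e
        rcases List.mem_cons.1 hz with h1 | h1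
        · exact nck_xA h hjl (h1 ▸ hy)
        · exact hdis hjl hil.symm (fun e => hjl e.1) (fun e => hij e.1.symm) y hy h1
    · intro y hy z hz e
      subst e
      rcases List.mem_cons.1 hz with h1 | h1
      · exact nck_xA h hij (h1 ▸ hy)
      rcases List.mem_append.1 h1 with h1 | h1
      · exact hdis hij hjl (fun e => hij e.1) (fun e => hil e.1) y hy h1
      rcases List.mem_cons.1 h1 with h1 | h1
      · exact nck_xA h hij (h1 ▸ hy)
      · exact hdis hij hil.symm (fun e => hil e.1) (fun e => hjl e.2) y hy h1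
  have hlen : 3 ≤ F.length := by
    by_contra hcon
    have h1 : F.length = (A i j).length + ((A j l).length + ((A l i).length + 1) + 1) := by
      rw [hF]
      simp only [List.length_append, List.length_cons]
    have e1 : A i j = [] := List.eq_nil_of_length_eq_zero (by omega)
    have e2 : A j l = [] := List.eq_nil_of_length_eq_zero (by omega)
    have e3 : A l i = [] := List.eq_nil_of_length_eq_zero (by omega)
    exact nck_tri hG h hij hil hjl e1 e2 (nck_sym h e3)
  have hhead : F.head? = some (a j) := by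
    rw [← (ha j hij).1, hF]
    cases A i j <;> rfl
  have hlast : F.getLast? = some (a l) := by
    rw [← (ha l hil).1, ← List.getLast?_reverse, List.reverse_append, ← hli, hF]
    simp [List.getLast?_append, List.getLast?_cons]
  have haj : a j ∈ F := List.mem_of_head? hhead
  have hal : a l ∈ F := List.mem_of_getLast? hlast
  refine ⟨(hk _ haj).1, (hk _ hal).1, ?_⟩
  -- decompose
  obtain ⟨P, hP⟩ : ∃ P, F = a j :: (P ++ [a l]) := by
    cases hFF : F with
    | nil => rw [hFF] at hlen; simp at hlen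
    | cons b T =>
      rw [hFF] at hlen hhead hlast
      rw [List.head?_cons] at hhead
      have hb : b = a j := Option.some_injective _ hhead
      subst hb
      rcases List.eq_nil_or_concat T with hT | ⟨P, c, hT⟩
      · rw [hT] at hlen; simp at hlen
      · rw [hT] at hlast
        rw [List.concat_eq_append] at hlast hT
        have hc : c = a l := by
          rw [← List.cons_append, List.getLast?_append] at hlast
          simpa using hlast
        exact ⟨P, by rw [hT, hc]⟩
  have hPne : P ≠ [] := by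
    rintro rfl
    rw [hP] at hlen
    simp at hlen
  rw [hP] at hFc hnd
  have hPF : ∀ y ∈ P, y ∈ F := by
    intro y hy
    rw [hP]
    exact List.mem_cons_of_mem _ (List.mem_append_left _ hy)
  have hPc : (P ++ [a l]).IsChain G.Adj := hFc.tail
  refine ⟨P, (nck_ch G P).2 hPc.left_of_append, ?_, ?_, ?_, fun y hy => (hk y (hPF y hy)).2⟩
  · intro y hy
    refine ⟨(hv y (hPF y hy)).1, fun e => ?_⟩
    rw [List.nodup_cons, List.nodup_append] at hnd
    rcases (hv y (hPF y hy)).2 e with h1 | h1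
    · exact hnd.1 (h1 ▸ List.mem_append_left _ hy)
    · exact hnd.2.2.2 y hy (a l) (List.mem_singleton.2 rfl) h1
  · obtain ⟨y, T, rfl⟩ := List.exists_cons_of_ne_nil hPne
    exact ⟨y, List.mem_cons_self, hFc.rel_head? rfl⟩
  · refine ⟨P.getLast hPne, List.getLast_mem hPne, ?_⟩
    have := (List.isChain_append.1 hPc).2.2 (P.getLast hPne)
      (List.getLast?_eq_some_getLast hPne) (a l) rfl
    exact this.symm

end

theorem st_NCK (hB : ST_BTW) : ST_NCK := by
  intro V _ G hG hK hC
  obtain ⟨x, A, h, hN⟩ := hK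
  obtain ⟨i, hi⟩ := nck_i hG h hN
  obtain ⟨a, ha⟩ := nck_a h i
  obtain ⟨p, hp1, hp2⟩ := hB V G (x i) hG hC
  have key : ∀ j l k : Fin 4, i ≠ j → i ≠ l → i ≠ k → j ≠ l → j ≠ k → l ≠ k →
      a k ≠ a j ∧ ¬ Btw p (a j) (a k) (a l) := by
    intro j l k hij hil hik hjl hjk hlk
    obtain ⟨h1, h2, P, h3, h4, h5, h6, h7⟩ :=
      nck_btw hG h i hi a ha j l k hij hil hik hjl hjk hlk
    exact ⟨h1, hp2 (a j) (a l) (a k) P (ha j hij).2.1 (ha l hil).2.1 (ha k hik).2.1 h1 h2
      h3 h4 h5 h6 h7⟩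
  have hex : ∀ i : Fin 4, ∃ j l k : Fin 4, i ≠ j ∧ i ≠ l ∧ i ≠ k ∧ j ≠ l ∧ j ≠ k ∧ l ≠ k := by
    decide
  obtain ⟨j, l, k, hij, hil, hik, hjl, hjk, hlk⟩ := hex i
  obtain ⟨n1, b1⟩ := key j l k hij hil hik hjl hjk hlk
  obtain ⟨n2, b2⟩ := key l k j hil hik hij hlk hjl.symm hjk.symm
  obtain ⟨n3, b3⟩ := key k j l hik hij hil hjk.symm hlk.symm hjl
  have m1 : p (a k) ≠ p (a j) := fun e => n1 (hp1 _ _ (ha k hik).2.1 (ha j hij).2.1 e)
  have m2 : p (a j) ≠ p (a l) := fun e => n2 (hp1 _ _ (ha j hij).2.1 (ha l hil).2.1 e)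
  have m3 : p (a l) ≠ p (a k) := fun e => n3 (hp1 _ _ (ha l hil).2.1 (ha k hik).2.1 e)
  unfold Btw at b1 b2 b3
  rcases lt_or_gt_of_ne m1 with h1 | h1 <;> rcases lt_or_gt_of_ne m2 with h2 | h2 <;>
    rcases lt_or_gt_of_ne m3 with h3 | h3
  · exact lt_asymm (h1.trans h2) h3
  · exact b2 (Or.inr ⟨h1, h2⟩)
  · exact b1 (Or.inr ⟨h3, h1⟩)
  · exact b3 (Or.inl ⟨h3, h2⟩)
  · exact b3 (Or.inr ⟨h2, h3⟩)
  · exact b1 (Or.inl ⟨h1, h3⟩)
  · exact b2 (Or.inl ⟨h2, h1⟩)
  · exact lt_asymm (h1.trans h3) h2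

end Pool.Agent.Helper64.HG
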