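import Pool.Agent.Helper64.HG.Stmts

set_option autoImplicit false

/-! Module PTH: paths in a piece and betweenness. -/

namespace Pool.Agent.Helper64.HG

section
variable {V : Type} {G : SimpleGraph V} {K N : Set V} {q L R : V → ℝ}

theorem pth_left (h : Rep G K N q L R) {n x y : V} (hn : n ∈ N) (hx : x ∈ K) (hy : y ∈ K)
    (hxy : G.Adj x y) (hny : ¬ G.Adj n y) (h1 : R x < q n) : R y < q n := by
  have h2 := (h.adjK x hx y hy).1 hxy
  have h3 := h.lt y hy
  rw [h.adjN n hn y hy] at hny
  push Not at hny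
  have h4 : L y < R x := by
    rcases h2 with h2 | h2
    · exact h2.2.1
    · exact h3.trans h2.2.2
  exact lt_of_le_of_ne (hny (h4.trans h1)) (h.neR n hn y hy).symm

theorem pth_right (h : Rep G K N q L R) {n x y : V} (hn : n ∈ N) (hx : x ∈ K) (hy : y ∈ K)
    (hxy : G.Adj x y) (hny : ¬ G.Adj n y) (h1 : q n < L x) : q n < L y := by
  have h2 := (h.adjK x hx y hy).1 hxy
  have h3 := h.lt y hy
  have h5 := h.lt x hx
  rw [h.adjN n hn y hy] at hny
  have h4 : L x < R y := by
    rcases h2 with h2 | h2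
    · exact h5.trans h2.2.2
    · exact h2.2.1
  refine lt_of_le_of_ne (le_of_not_gt fun h6 => hny ⟨h6, h1.trans h4⟩) (h.neL n hn y hy)

theorem pth_stayL (h : Rep G K N q L R) {n : V} (hn : n ∈ N) :
    ∀ P : List V, P.IsChain G.Adj → (∀ y ∈ P, y ∈ K) → (∀ y ∈ P, ¬ G.Adj n y) →
    (∀ x, P.head? = some x → R x < q n) → ∀ y ∈ P, R y < q n
  | [], _, _, _, _, y, hy => absurd hy List.not_mem_nil
  | x :: T, hc, hK, hN, hh, y, hy => by
    have hx := hh x rfl
    rcases List.mem_cons.1 hy with rfl | hy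
    · exact hx
    · refine pth_stayL h hn T hc.tail (fun y hy => hK y (List.mem_cons_of_mem _ hy))
        (fun y hy => hN y (List.mem_cons_of_mem _ hy)) ?_ y hy
      intro x' hx'
      have hm := List.mem_of_head? hx'
      exact pth_left h hn (hK x List.mem_cons_self) (hK x' (List.mem_cons_of_mem _ hm))
        (hc.rel_head? hx') (hN x' (List.mem_cons_of_mem _ hm)) hx

theorem pth_stayR (h : Rep G K N q L R) {n : V} (hn : n ∈ N) :
    ∀ P : List V, P.IsChain G.Adj → (∀ y ∈ P, y ∈ K) → (∀ y ∈ P, ¬ G.Adj n y) →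
    (∀ x, P.head? = some x → q n < L x) → ∀ y ∈ P, q n < L y
  | [], _, _, _, _, y, hy => absurd hy List.not_mem_nil
  | x :: T, hc, hK, hN, hh, y, hy => by
    have hx := hh x rfl
    rcases List.mem_cons.1 hy with rfl | hy
    · exact hx
    · refine pth_stayR h hn T hc.tail (fun y hy => hK y (List.mem_cons_of_mem _ hy))
        (fun y hy => hN y (List.mem_cons_of_mem _ hy)) ?_ y hy
      intro x' hx'
      have hm := List.mem_of_head? hx'
      exact pth_right h hn (hK x List.mem_cons_self) (hK x' (List.mem_cons_of_mem _ hm))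
        (hc.rel_head? hx') (hN x' (List.mem_cons_of_mem _ hm)) hx

theorem pth_chain {u w : V} {A : List V} (h : Link G u A w) : A.IsChain G.Adj := by
  rw [List.isChain_iff_getElem]
  intro n hn
  exact (h.2.1.2 n (n + 1) (by omega) hn (by omega)).2 rfl

/-- the case `n` on the side of `b` -/
theorem pth_half (hG : Girth5 G) {v : V} (hK : K ⊆ Far G v) (h : Rep G K N q L R)
    {a b n : V} (ha : a ∈ N) (hb : b ∈ N) (hn : n ∈ N) (hvb : G.Adj v b) (hvn : G.Adj v n)
    (hnb : n ≠ b) {A : List V} (hA : ∀ x ∈ A, x ∈ K) (hl : Link G a A b)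
    (hs : (q a < q b ∧ q b < q n) ∨ (q n < q b ∧ q b < q a)) {x : V} (hx : x ∈ A)
    (hnx : G.Adj n x) : False := by
  obtain ⟨hne, hip, _, _, hla, hlb⟩ := id hl
  have hch := pth_chain hl
  rcases List.eq_nil_or_concat A with h0 | ⟨A', z, hz⟩
  · exact hne h0
  rw [List.concat_eq_append] at hz
  subst hz
  have hzb : G.Adj b z := (hlb z (by simp)).2 (by simp)
  have hnd := hip.1
  rw [List.nodup_append] at hnd
  have hb' : ∀ y ∈ A', ¬ G.Adj b y := by
    intro y hy e
    have h1 := (hlb y (List.mem_append_left _ hy)).1 e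
    rw [List.getLast?_append] at h1
    have h2 : z = y := by simpa using h1
    exact hnd.2.2 y hy z (List.mem_singleton.2 rfl) h2.symm
  have hhead : ∀ x0, A'.head? = some x0 → G.Adj a x0 := by
    intro x0 hx0
    have hm := List.mem_of_head? hx0
    refine (hla x0 (List.mem_append_left _ hm)).2 ?_
    rw [List.head?_append_of_ne_nil _ (List.ne_nil_of_mem hm)]
    exact hx0
  have hKA : ∀ y ∈ A', y ∈ K := fun y hy => hA y (List.mem_append_left _ hy)
  have hxz : x = z := by
    rcases List.mem_append.1 hx with hx | hx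
    · exfalso
      rcases hs with ⟨hs1, hs2⟩ | ⟨hs1, hs2⟩
      · have h1 := pth_stayL h hb A' hch.left_of_append hKA hb' (by
          intro x0 hx0
          have hm := List.mem_of_head? hx0
          have h2 := (h.adjN a ha x0 (hKA x0 hm)).1 (hhead x0 hx0)
          have h3 := hb' x0 hm
          rw [h.adjN b hb x0 (hKA x0 hm)] at h3
          push Not at h3
          exact lt_of_le_of_ne (h3 (h2.1.trans hs1)) (h.neR b hb x0 (hKA x0 hm)).symm) x hx
        have h2 := (h.adjN n hn x (hKA x hx)).1 hnx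
        linarith [h2.2]
      · have h1 := pth_stayR h hb A' hch.left_of_append hKA hb' (by
          intro x0 hx0
          have hm := List.mem_of_head? hx0
          have h2 := (h.adjN a ha x0 (hKA x0 hm)).1 (hhead x0 hx0)
          have h3 := hb' x0 hm
          rw [h.adjN b hb x0 (hKA x0 hm)] at h3
          refine lt_of_le_of_ne (le_of_not_gt fun h6 => h3 ⟨h6, hs2.trans h2.2⟩)
            (h.neL b hb x0 (hKA x0 hm))) x hx
        have h2 := (h.adjN n hn x (hKA x hx)).1 hnx
        linarith [h2.1]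
    · exact List.mem_singleton.1 hx
  subst hxz
  exact hG.2 v b x n (hK (hA x hx)).1.symm hnb.symm hvb hzb hnx.symm hvn.symm

end

theorem st_PTH (hS : ST_SHO) (hR : ST_REV) : ST_PTH := by
  intro V G v K q L R hG hK hpre h a ha b hb hab
  have haK : a ∉ K := fun h1 => (hK h1).2 ha.1
  have hbK : b ∉ K := fun h1 => (hK h1).2 hb.1
  obtain ⟨A, hA, hl⟩ := hS V G K a b hpre haK hbK ha.2 hb.2
  refine ⟨A, hA, hl, ?_⟩
  intro n hvn hna hnb
  constructor
  · rintro ⟨x, hx, hnx⟩
    have hn : n ∈ Att G v K := ⟨hvn, x, hA x hx, hnx⟩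
    refine ⟨hn, ?_⟩
    have e1 : q n ≠ q a := fun e => hna (h.injq n hn a ha e)
    have e2 : q n ≠ q b := fun e => hnb (h.injq n hn b hb e)
    have e3 : q a ≠ q b := fun e => hab (h.injq a ha b hb e)
    have hB : ¬ ((q a < q b ∧ q b < q n) ∨ (q n < q b ∧ q b < q a)) := fun hs =>
      pth_half hG hK h ha hb hn hb.1 hvn hnb hA hl hs hx hnx
    have hA2 : ¬ ((q b < q a ∧ q a < q n) ∨ (q n < q a ∧ q a < q b)) := fun hs =>
      pth_half hG hK h hb ha hn ha.1 hvn hna (A := A.reverse)
        (fun y hy => hA y (List.mem_reverse.1 hy)) (hR V G a b A hl) hs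
        (List.mem_reverse.2 hx) hnx
    unfold Btw
    rcases lt_or_gt_of_ne e1 with h1 | h1 <;> rcases lt_or_gt_of_ne e2 with h2 | h2 <;>
      rcases lt_or_gt_of_ne e3 with h3 | h3
    · exact absurd (Or.inr ⟨h1, h3⟩) hA2
    · exact absurd (Or.inr ⟨h2, h3⟩) hB
    · exact absurd (h1.trans h3) (not_lt.2 h2.le)
    · exact Or.inr ⟨h2, h1⟩
    · exact Or.inl ⟨h1, h2⟩
    · exact absurd (h3.trans h1) (not_lt.2 h2.le)
    · exact absurd (Or.inl ⟨h3, h2⟩) hB
    · exact absurd (Or.inl ⟨h3, h1⟩) hA2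
  · rintro ⟨hn, hbt⟩
    by_contra hcon
    push Not at hcon
    obtain ⟨hne, hip, _, _, hla, hlb⟩ := id hl
    have hch := pth_chain hl
    have hm1 := List.getLast_mem hne
    have hx1 : G.Adj a (A.head hne) :=
      (hla _ (List.head_mem hne)).2 (List.head?_eq_some_head hne)
    have hx2 : G.Adj b (A.getLast hne) :=
      (hlb _ hm1).2 (List.getLast?_eq_some_getLast hne)
    have i1 := (h.adjN a ha _ (hA _ (List.head_mem hne))).1 hx1
    have i2 := (h.adjN b hb _ (hA _ hm1)).1 hx2
    have i3 := hcon _ (List.head_mem hne)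
    rw [h.adjN n hn _ (hA _ (List.head_mem hne))] at i3
    rcases hbt with hbt | hbt
    · have h1 := pth_stayL h hn A hch hA hcon (by
        intro x0 hx0
        rw [List.head?_eq_some_head hne] at hx0
        have hx0' := Option.some_injective _ hx0
        subst hx0'
        push Not at i3
        exact lt_of_le_of_ne (i3 (i1.1.trans hbt.1)) (h.neR n hn _ (hA _ (List.head_mem hne))).symm)
        _ hm1
      linarith [i2.2, hbt.2]
    · have h1 := pth_stayR h hn A hch hA hcon (by
        intro x0 hx0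
        rw [List.head?_eq_some_head hne] at hx0
        have hx0' := Option.some_injective _ hx0
        subst hx0'
        exact lt_of_le_of_ne (le_of_not_gt fun h6 => i3 ⟨h6, hbt.2.trans i1.2⟩)
          (h.neL n hn _ (hA _ (List.head_mem hne)))) _ hm1
      linarith [i2.1, hbt.1]

end Pool.Agent.Helper64.HG
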