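import Pool.Agent.Helper64.HG.Stmts

set_option autoImplicit false

/-! Module SID: two-colouring of intervals of depth at most two. -/

namespace Pool.Agent.Helper64.HG

theorem st_SID : ST_SID := by
  classical
  intro ι hfin s e hse h3
  have : Fintype ι := Fintype.ofFinite ι
  have key : ∀ F : Finset ι, ∃ σ : ι → Bool, ∀ i ∈ F, ∀ j ∈ F, i ≠ j → σ i = σ j →
      e i < s j ∨ e j < s i := by
    intro F
    refine Finset.induction_on_max_value s F ⟨fun _ => true, by simp⟩ ?_
    intro a S ha hmax ih
    obtain ⟨σ, hσ⟩ := ih
    by_cases hx : ∃ x ∈ S, ¬ (e x < s a ∨ e a < s x)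
    · obtain ⟨x, hxS, hx⟩ := hx
      have hval : ∀ y ∈ S, y ≠ x → e y < s a := by
        intro y hyS hyx
        by_contra hcon
        push Not at hcon hx
        have hxa : x ≠ a := fun h => ha (h ▸ hxS)
        have hya : y ≠ a := fun h => ha (h ▸ hyS)
        exact h3 y x a hyx hya hxa (s a) ⟨hmax y hyS, hcon, hmax x hxS, hx.1, le_rfl, hse a⟩
      refine ⟨Function.update σ a (!σ x), ?_⟩
      intro i hi j hj hij hc
      rw [Finset.mem_insert] at hi hj
      rcases hi with hi | hi
      · subst hi
        have hji : j ≠ i := hij.symm
        have hjS : j ∈ S := hj.resolve_left hji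
        rw [Function.update_self, Function.update_of_ne hji] at hc
        by_cases hjx : j = x
        · subst hjx
          exact absurd hc (by cases σ j <;> decide)
        · exact Or.inr (hval j hjS hjx)
      · have hia : i ≠ a := fun h => ha (h ▸ hi)
        rcases hj with hj | hj
        · subst hj
          rw [Function.update_self, Function.update_of_ne hia] at hc
          by_cases hix : i = x
          · subst hix
            exact absurd hc (by cases σ i <;> decide)
          · exact Or.inl (hval i hi hix)
        · have hja : j ≠ a := fun h => ha (h ▸ hj)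
          rw [Function.update_of_ne hia, Function.update_of_ne hja] at hc
          exact hσ i hi j hj hij hc
    · push Not at hx
      refine ⟨σ, ?_⟩
      intro i hi j hj hij hc
      rw [Finset.mem_insert] at hi hj
      rcases hi with hi | hi
      · subst hi
        have hjS : j ∈ S := hj.resolve_left hij.symm
        exact (hx j hjS).symm
      · rcases hj with hj | hj
        · subst hj
          exact hx i hi
        · exact hσ i hi j hj hij hc
  obtain ⟨σ, hσ⟩ := key Finset.univ
  exact ⟨σ, fun i j => hσ i (Finset.mem_univ _) j (Finset.mem_univ _)⟩

end Pool.Agent.Helper64.HG
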